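import Pool.Agent.H28.EN.Targets

/-!
# The energy argument: the mean square of the distance to the integers
-/

set_option autoImplicit false

open Finset Pool.Agent.H6.N4D

namespace Pool.Agent.H73.EN

open Pool.Agent.H28.EN

theorem pf_NDS : T_NDS := by
  intro N n r s hN hr hs
  have hN0 : (0 : ℝ) < N := by exact_mod_cast hN
  have hc : (((2 * N : ℕ) : ℕ) : ℝ) = 2 * N := by push_cast; ring
  rcases le_or_gt (|r|) (2 * |s|) with h | h
  · -- pairs
    have hsplit : ∑ m ∈ Ioc n (n + 2 * N), nd (r + s * tt (2 * N) n m) ^ 2 =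
        ∑ m ∈ Ioc n (n + N), (nd (r + s * tt (2 * N) n m) ^ 2 +
          nd (r + s * tt (2 * N) n (m + N)) ^ 2) := by
      have e1 : n + 2 * N = n + N + N := by ring
      rw [e1, ← Finset.sum_Ioc_consecutive _ (Nat.le_add_right n N) (Nat.le_add_right (n + N) N),
        sum_add_distrib]
      congr 1
      rw [← Finset.map_add_right_Ioc, Finset.sum_map]
      rfl
    have hpair : ∀ m ∈ Ioc n (n + N), s ^ 2 / 8 ≤ nd (r + s * tt (2 * N) n m) ^ 2 +
          nd (r + s * tt (2 * N) n (m + N)) ^ 2 := by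
      intro m _
      have e2 : (r + s * tt (2 * N) n (m + N)) - (r + s * tt (2 * N) n m) = s / 2 := by
        unfold tt
        push_cast
        field_simp
        ring
      have h2 : |s / 2| ≤ 1 / 2 := by
        rw [abs_div, abs_of_pos (by norm_num : (0 : ℝ) < 2)]
        linarith
      have h3 := nd_sub_le (r + s * tt (2 * N) n (m + N)) (r + s * tt (2 * N) n m)
      rw [e2, nd_eq_abs h2, abs_div, abs_of_pos (by norm_num : (0 : ℝ) < 2)] at h3
      have h4 : s ^ 2 = |s| ^ 2 := (sq_abs s).symm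
      rw [h4]
      nlinarith [nd_nonneg (r + s * tt (2 * N) n (m + N)), nd_nonneg (r + s * tt (2 * N) n m),
        sq_nonneg (nd (r + s * tt (2 * N) n (m + N)) - nd (r + s * tt (2 * N) n m)),
        abs_nonneg s]
    have hsum := sum_le_sum hpair
    rw [sum_const, Nat.card_Ioc, nsmul_eq_mul, Nat.add_sub_cancel_left] at hsum
    rw [hsplit, hc, le_div_iff₀ (by positivity)]
    have h5 : (|r| + |s|) ^ 2 ≤ 9 * s ^ 2 := by
      rw [← sq_abs s]
      nlinarith [abs_nonneg r, abs_nonneg s]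
    calc (|r| + |s|) ^ 2 / 144 * (2 * N) ≤ 9 * s ^ 2 / 144 * (2 * N) := by gcongr
      _ = N * (s ^ 2 / 8) := by ring
      _ ≤ _ := hsum
  · have hone : ∀ m ∈ Ioc n (n + 2 * N), r ^ 2 / 4 ≤ nd (r + s * tt (2 * N) n m) ^ 2 := by
      intro m hm
      rw [mem_Ioc] at hm
      have hm1 : (n : ℝ) ≤ m := by exact_mod_cast hm.1.le
      have hm2 : (m : ℝ) ≤ n + 2 * N := by exact_mod_cast hm.2
      have t0 : 0 ≤ tt (2 * N) n m := by
        unfold tt
        exact div_nonneg (by linarith) (by positivity)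
      have t1 : tt (2 * N) n m ≤ 1 := by
        unfold tt
        rw [hc, div_le_one (by positivity)]
        linarith
      have h2 : |s * tt (2 * N) n m| ≤ |s| := by
        rw [abs_mul, abs_of_nonneg t0]
        nlinarith [abs_nonneg s]
      have h3 := nd_sub_le (r + s * tt (2 * N) n m) (s * tt (2 * N) n m)
      rw [add_sub_cancel_right, nd_eq_abs hr] at h3
      have h4 := nd_le_abs (s * tt (2 * N) n m)
      have h5 : |r| / 2 ≤ nd (r + s * tt (2 * N) n m) := by linarith
      rw [← sq_abs r]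
      nlinarith [abs_nonneg r]
    have hsum := sum_le_sum hone
    rw [sum_const, Nat.card_Ioc, nsmul_eq_mul, Nat.add_sub_cancel_left, hc] at hsum
    rw [hc, le_div_iff₀ (by positivity)]
    have h5 : (|r| + |s|) ^ 2 ≤ 9 / 4 * r ^ 2 := by
      rw [← sq_abs r]
      nlinarith [abs_nonneg r, abs_nonneg s]
    calc (|r| + |s|) ^ 2 / 144 * (2 * N) ≤ 9 / 4 * r ^ 2 / 144 * (2 * N) := by gcongr
      _ ≤ 2 * N * (r ^ 2 / 4) := by nlinarith [sq_nonneg r, mul_nonneg hN0.le (sq_nonneg r)]
      _ ≤ _ := hsum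

end Pool.Agent.H73.EN
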